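import Pool.Agent.W102.GI.Defs

set_option autoImplicit false

namespace Pool.Agent.W318.GI2

theorem MC : Pool.Agent.W102.GI.MC := by
  classical
  intro ι _ m
  have h := Finset.card_finsuppAntidiag_nat_eq_multichoose (s := (Finset.univ : Finset ι)) m
  rw [Finset.card_univ] at h
  rw [← h]
  have himg : {f : ι → ℕ | ∑ i, f i = m} =
      (fun f : ι →₀ ℕ => (f : ι → ℕ)) '' (Finset.finsuppAntidiag (Finset.univ : Finset ι) m : Set (ι →₀ ℕ)) := by
    ext f
    simp only [Set.mem_setOf_eq, Set.mem_image, Finset.mem_coe, Finset.mem_finsuppAntidiag]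
    constructor
    · intro hf
      refine ⟨Finsupp.equivFunOnFinite.symm f, ⟨?_, ?_⟩, ?_⟩
      · simpa using hf
      · simp
      · simp
    · rintro ⟨g, ⟨hg, -⟩, rfl⟩
      exact hg
  rw [himg, Set.ncard_image_of_injective _ DFunLike.coe_injective, Set.ncard_coe_finset]

end Pool.Agent.W318.GI2
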